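import Mathlib
import Pool.Agent.TH477.EQ.Final

set_option autoImplicit false

/-!
For every field `F` of characteristic zero and every `n ≥ 3` the equality problem (uniform word
problem, decidability of quasi-identities) of the variety `M(n)` generated by the algebra of
`n × n` matrices over `F` is undecidable; the same holds for every class of associative
`F`-algebras which contains `M(n)`. There is even a fixed finite system of equations, the same for
all `F`, all `n ≥ 3` and all these classes, whose consequences are undecidable.

Idea of the proof. A path of length three through three vertices, `1 → 2 → 3 → 1`, with a loop `y`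
at the vertex `2` and a loop `z` at the vertex `3`, gives words `α y^b q z^c β`. Relations between
words `α y^b q z^c` can be multiplied by `z` on the right but not by `y` on the left, and relations
between words `y^b q z^c β` can be multiplied by `y` on the left but not by `z` on the right: they
are zero tests for the two counters `b` and `c`, and a generalised Collatz map with undecidable
halting problem can be simulated. That nothing collapses is shown by `3 × 3` matrices over a
polynomial ring and a linear functional on the corner `1 → 1`.
-/

namespace Pool.Agent.Results.MP_79b5eb_lc.MatrixVarieties

open Pool.Agent.TH477.EQ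

universe u

theorem result : ∃ H : List Poly, ∀ (F : Type u) [Field F] [CharZero F] (n : ℕ), 3 ≤ n →
    ∀ K : Set (AssocAlg F), MatrixVariety F n ⊆ K →
      (¬ ComputablePred fun Q : QuasiIdentity => ∀ A ∈ K, Holds A Q) ∧
      ¬ ComputablePred fun c : Poly => ∀ A ∈ K, Holds A (H, c) := by
  obtain ⟨H, hH⟩ := main.{u}
  refine ⟨H, fun F _ _ n hn K hK => ?_⟩
  obtain ⟨k, rfl⟩ := Nat.exists_eq_add_of_le hn
  have h := (hH F).1 K ((matrix_mono F k).trans hK)
  exact ⟨uniform H K h, h⟩

end Pool.Agent.Results.MP_79b5eb_lc.MatrixVarieties
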