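import Mathlib
import Pool.Agent.TH477.EQ.Final

set_option autoImplicit false

/-!
For every field `F` of characteristic zero and every `n ≥ 6` the equality problem (uniform word
problem, decidability of quasi-identities) of the variety `S(n)` of associative `F`-algebras
defined by the standard identity `s_n = 0` is undecidable; the same holds for every class of
associative `F`-algebras which contains `S(n)`. There is even a fixed finite system of equations,
the same for all `F`, all `n ≥ 6` and all these classes, whose consequences are undecidable.

Idea of the proof. In the words `α y^b q z^c β` given by a path `0 → 1 → 2 → 3` with a loop `y` at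
the vertex `1` and a loop `z` at the vertex `2`, relations between words `α y^b q z^c` can be
multiplied by `z` on the right but not by `y` on the left, and relations between words
`y^b q z^c β` can be multiplied by `y` on the left but not by `z` on the right: they are zero tests
for the two counters `b` and `c`, and a generalised Collatz map with undecidable halting problem
can be simulated. That nothing collapses is shown by upper triangular `4 × 4` matrices over a
polynomial ring whose first and last diagonal entries vanish; they satisfy `s_n = 0` for `n ≥ 6`.
-/

namespace Pool.Agent.Results.MP_79b5eb_lc.StandardVarieties

open Pool.Agent.TH477.EQ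

universe u

theorem result : ∃ H : List Poly, ∀ (F : Type u) [Field F] [CharZero F] (n : ℕ), 6 ≤ n →
    ∀ K : Set (AssocAlg F), StandardVariety F n ⊆ K →
      (¬ ComputablePred fun Q : QuasiIdentity => ∀ A ∈ K, Holds A Q) ∧
      ¬ ComputablePred fun c : Poly => ∀ A ∈ K, Holds A (H, c) := by
  obtain ⟨H, hH⟩ := main.{u}
  refine ⟨H, fun F _ _ n hn K hK => ?_⟩
  have h := (hH F).2.2 K n hn hK
  exact ⟨uniform H K h, h⟩

end Pool.Agent.Results.MP_79b5eb_lc.StandardVarieties
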